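import Pool.Agent.FS.EveryC.Two

/-! Two-level block sequences: `2d` consecutive prime gaps `y_1, ..., y_{2d}` in one range and
`d` consecutive prime gaps `y_{d+1} - y_1, ..., y_{2d} - y_d` in a much earlier range. -/

open Pool.Agent.Lib.MP_bee098_nt Pool.Agent.FS.EveryC

namespace Pool.Agent.FS.EveryD

theorem map_rs {M M' : Type} [Add M] [Add M'] {f : M → M'} (hf : ∀ a b, f (a + b) = f a + f b)
    (b : M) (z : List M) : (rs b z).map f = rs (f b) (z.map f) := by
  induction z generalizing b with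
  | nil => rfl
  | cons a z ih =>
    show f (b + a) :: (rs (b + a) z).map f = (f b + f a) :: rs (f b + f a) (z.map f)
    rw [ih, hf]

theorem rs_supp {b e : ℕ → ℕ} {z : List (ℕ → ℕ)} (h : e ∈ rs b z) {i : ℕ} (hi : e i ≠ 0) :
    b i ≠ 0 ∨ ∃ a ∈ z, a i ≠ 0 := by
  induction z generalizing b with
  | nil => exact absurd h List.not_mem_nil
  | cons a z ih =>
    have key : (b + a) i ≠ 0 → b i ≠ 0 ∨ ∃ c ∈ a :: z, c i ≠ 0 := fun h' => by
      by_cases hb : b i = 0
      · exact Or.inr ⟨a, List.mem_cons_self, fun ha => h' (by rw [Pi.add_apply, hb, ha])⟩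
      · exact Or.inl hb
    rcases List.mem_cons.1 (show e ∈ (b + a) :: rs (b + a) z from h) with rfl | h
    · exact key hi
    · rcases ih h with h' | ⟨c, hc, h'⟩
      · exact key h'
      · exact Or.inr ⟨c, List.mem_cons_of_mem _ hc, h'⟩

theorem Cs_map {M M' : Type} {f : M' → ℕ} {F : M → M'} {i : ℕ} {l : List M}
    (h : Cs f i (l.map F)) : Cs (fun a => f (F a)) i l := by
  induction l generalizing i with
  | nil => trivial
  | cons a l ih => exact ⟨h.1, ih h.2⟩

/-- The differences `g a.2 - g a.1` along the list are consecutive prime gaps. -/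
def Gd {M : Type} (g : M → ℕ) : ℕ → List (M × M) → Prop
  | _, [] => True
  | i, a :: l => Nat.nth Nat.Prime (i + 1) + g a.1 = Nat.nth Nat.Prime i + g a.2 ∧ Gd g (i + 1) l

theorem Gd_rs {M : Type} [Add M] {g : M → ℕ} (hg : ∀ a b, g (a + b) = g a + g b)
    {φ : M × M → ℕ} {C i : ℕ} {b : M × M} {y : List (M × M)}
    (hC : ∀ e ∈ b :: rs b y, φ e + g e.1 = C + g e.2) (h1 : φ b = Nat.nth Nat.Prime i)
    (h2 : Cs φ (i + 1) (rs b y)) : Gd g i y := by
  induction y generalizing b i with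
  | nil => trivial
  | cons a y ih =>
    refine ⟨?_, ih (fun e he => hC e (List.mem_cons_of_mem _ he)) h2.1 h2.2⟩
    have h3 := hC b List.mem_cons_self
    have h4 : φ (b + a) + g (b.1 + a.1) = C + g (b.2 + a.2) :=
      hC (b + a) (List.mem_cons_of_mem _ List.mem_cons_self)
    have h5 : φ (b + a) = _ := h2.1
    rw [hg, hg] at h4
    omega

theorem three' {M : Type} {g : M → ℕ} {p : List (M × M)} {i i' i'' : ℕ} (h : Gd g i p)
    (h' : Gp g i' (p.map Prod.fst)) (h'' : Gp g i'' (p.map Prod.snd)) :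
    ∀ j ≤ p.length, Nat.nth Nat.Prime (i + j) + Nat.nth Nat.Prime (i' + j) + Nat.nth Nat.Prime i''
      = Nat.nth Nat.Prime i + Nat.nth Nat.Prime i' + Nat.nth Nat.Prime (i'' + j) := by
  induction p generalizing i i' i'' with
  | nil =>
    intro j hj
    rw [Nat.le_zero.1 hj]
    rfl
  | cons a p ih =>
    rintro (_ | j) hj
    · rfl
    · have h1 := ih h.2 h'.2 h''.2 j (Nat.le_of_succ_le_succ hj)
      have h2 := h.1
      have h3 : _ = _ + g a.1 := h'.1
      have h4 : _ = _ + g a.2 := h''.1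
      rw [show i + (j + 1) = i + 1 + j by omega, show i' + (j + 1) = i' + 1 + j by omega,
        show i'' + (j + 1) = i'' + 1 + j by omega]
      omega

theorem diff_level {N : ℕ} {p : List ((ℕ → ℕ) × (ℕ → ℕ))}
    (h1 : (p.map Prod.fst ++ p.map Prod.snd).Pairwise Sep)
    (h2 : ∀ a ∈ p.map Prod.fst ++ p.map Prod.snd, Ok N a) : ∃ T : ℕ → ℕ,
    ((rs 0 p).map fun e => T - e.1 + e.2).Pairwise Top ∧
      ∀ e ∈ rs 0 p, Ok N (T - e.1 + e.2) ∧ T - e.1 + e.2 + e.1 = T + e.2 := by
  classical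
  obtain ⟨s1, s2, s3⟩ := List.pairwise_append.1 h1
  obtain ⟨-, r1⟩ := rs_top (b := 0) s1 (fun a ha => h2 a (List.mem_append_left _ ha))
    (fun a _ i i' h => absurd rfl h) (fun _ => Nat.zero_le _) (fun _ _ => rfl)
  obtain ⟨r2, r3⟩ := rs_top (b := 0) s2 (fun a ha => h2 a (List.mem_append_right _ ha))
    (fun a _ i i' h => absurd rfl h) (fun _ => Nat.zero_le _) (fun _ _ => rfl)
  have m1 : (rs 0 p).map Prod.fst = rs 0 (p.map Prod.fst) := map_rs (fun _ _ => rfl) 0 p
  have m2 : (rs 0 p).map Prod.snd = rs 0 (p.map Prod.snd) := map_rs (fun _ _ => rfl) 0 p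
  have e1 : ∀ e ∈ rs 0 p, e.1 ∈ rs 0 (p.map Prod.fst) := fun e he => m1 ▸ List.mem_map_of_mem he
  have e2 : ∀ e ∈ rs 0 p, e.2 ∈ rs 0 (p.map Prod.snd) := fun e he => m2 ▸ List.mem_map_of_mem he
  obtain ⟨T, T1, T2, T3, T4⟩ : ∃ T : ℕ → ℕ, (∀ i, T i ≤ 1) ∧ (∀ i ≥ N, T i = 0) ∧
      (∀ e ∈ rs 0 p, ∀ i, e.2 i ≠ 0 → ∀ i' ≥ i, T i' = 0) ∧ ∀ e ∈ rs 0 p, ∀ i, e.1 i ≤ T i := by
    refine ⟨fun i => if i < N ∧ ∀ b ∈ p.map Prod.snd, ∀ i', b i' ≠ 0 → i < i' then 1 else 0,
      fun i => ?_, fun i hi => if_neg fun h => absurd h.1 (not_lt.2 hi),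
      fun e he i hi i' h => if_neg fun h' => ?_, fun e he i => ?_⟩
    · dsimp only
      split_ifs <;> omega
    · obtain h3 | ⟨b, hb, h3⟩ := rs_supp (e2 e he) hi
      · exact h3 rfl
      · exact absurd (h'.2 b hb i h3) (not_lt.2 h)
    · by_cases hi : e.1 i = 0
      · omega
      obtain h3 | ⟨a, ha, h3⟩ := rs_supp (e1 e he) hi
      · exact absurd rfl h3
      · refine ((r1 _ (e1 e he)).1.2.1 i).trans (if_pos ⟨?_, fun b hb i' h => s3 a ha b hb i i' h3 h⟩).ge
        exact not_le.1 fun h => hi ((r1 _ (e1 e he)).1.2.2 i h)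
  rw [← m2, List.pairwise_map] at r2
  refine ⟨T, List.pairwise_map.2 (List.Pairwise.imp_of_mem (fun {a b} _ hb h => ?_) r2),
    fun e he => ⟨⟨fun h => ?_, fun i => ?_, fun i hi => ?_⟩, funext fun i => ?_⟩⟩
  · obtain ⟨i, h3, h4⟩ := h
    refine ⟨i, fun h => h3 (Nat.add_eq_zero_iff.1 h).2, fun i' h => ?_⟩
    have := T3 b hb i h3 i' h
    have := h4 i' h
    simp only [Pi.add_apply, Pi.sub_apply]
    omega
  · exact (r3 _ (e2 e he)).1.1 (funext fun i => (Nat.add_eq_zero_iff.1 (congrFun h i)).2)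
  · have := T1 i
    have := fun h => T3 e he i h i le_rfl
    have := (r3 _ (e2 e he)).1.2.1 i
    simp only [Pi.add_apply, Pi.sub_apply]
    omega
  · have := T2 i hi
    have := (r3 _ (e2 e he)).1.2.2 i hi
    simp only [Pi.add_apply, Pi.sub_apply]
    omega
  · have := T4 e he i
    simp only [Pi.add_apply, Pi.sub_apply]
    omega

theorem runs_fixed_d (d e : ℕ) : ∃ i i', i + e < i' ∧ ∀ j ≤ d,
    Nat.nth Nat.Prime (i + j) + Nat.nth Nat.Prime (i' + j) + Nat.nth Nat.Prime (i' + d)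
      = Nat.nth Nat.Prime i + Nat.nth Nat.Prime i' + Nat.nth Nat.Prime (i' + d + j) := by
  obtain ⟨k, hk⟩ := stage_data (2 * d + 1) e
  choose x W X X' D h1 h2 using hk
  have hg : ∀ N (a b : ℕ → ℕ), W N * val N (x N) (a + b)
      = W N * val N (x N) a + W N * val N (x N) b := fun N a b => by rw [val_add, mul_add]
  obtain ⟨N, y, y1, y2⟩ := two_colourings (2 * d) (2 * k) (fun s N y => if s then
      ∃ p : List ((ℕ → ℕ) × (ℕ → ℕ)), y = p.map Prod.fst ++ p.map Prod.snd ∧
        ∃ i, Gd (fun a => W N * val N (x N) a) i p ∧ Nat.nth Nat.Prime i ≤ 16 * X N + D N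
      else ∃ i, Gp (fun a => W N * val N (x N) a) i y ∧ X' N ≤ Nat.nth Nat.Prime i + D N) (by
    intro s N z z1 z2 z3
    have z4 : ∀ a ∈ z, Ok N a := fun a ha => ⟨(z3 a ha).1.1, (z3 a ha).1.2.1, (z3 a ha).2⟩
    obtain ⟨p, p1, rfl⟩ : ∃ p : List ((ℕ → ℕ) × (ℕ → ℕ)), p.length = k ∧
        z = p.map Prod.fst ++ p.map Prod.snd := by
      have e1 : (z.take k).length = k := by rw [List.length_take]; omega
      have e2 : (z.drop k).length = k := by rw [List.length_drop]; omega
      refine ⟨(z.take k).zip (z.drop k), by rw [List.length_zip]; omega, ?_⟩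
      rw [List.map_fst_zip (by omega), List.map_snd_zip (by omega), List.take_append_drop]
    cases s with
    | false =>
      obtain ⟨r1, r2⟩ := rs_top (b := 0) (List.pairwise_append.1 z2).2.1
        (fun a ha => z4 a (List.mem_append_right _ ha)) (fun a _ i i' h => absurd rfl h)
        (fun _ => Nat.zero_le _) (fun _ _ => rfl)
      obtain ⟨g1, g2, -, g3⟩ := h2 N (rs 0 (p.map Prod.snd))
        (by rw [length_rs, List.length_map, p1]) r1 fun a ha => (r2 a ha).1
      obtain ⟨n, i, s, s1, s2, s3, s4, -⟩ := good_chain g1 g2 g3 le_rfl (Nat.succ_pos _)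
      obtain ⟨y, y1, rfl⟩ := blk_rs add_assoc s1
      rw [length_rs] at s2
      cases y with
      | nil => exact absurd s2 (Nat.succ_ne_zero _).symm
      | cons a y =>
        exact ⟨y, blk_right (blk_tail y1) _, Nat.succ_injective s2, i,
          Gp_rs (hg N) s3.1 s3.2, s4⟩
    | true =>
      obtain ⟨T, t1, t2⟩ := diff_level z2 z4
      obtain ⟨g1, g2, g3, -⟩ := h2 N ((rs 0 p).map fun e => T - e.1 + e.2)
        (by rw [List.length_map, length_rs, p1]) t1 fun a ha => by
          obtain ⟨e, he, rfl⟩ := List.mem_map.1 ha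
          exact (t2 e he).1
      obtain ⟨n, i, s, s1, s2, s3, -, s4⟩ := good_chain g1 g2 g3 (m' := d + 1) (by omega)
        (Nat.succ_pos _)
      obtain ⟨l, l1, rfl⟩ := List.sublist_map_iff.1 s1
      obtain ⟨q, q1, rfl⟩ := blk_rs add_assoc l1
      rw [List.length_map, length_rs] at s2
      have s5 := Cs_map s3
      cases q with
      | nil => exact absurd s2 (Nat.succ_ne_zero _).symm
      | cons a q =>
        have q2 : q ∈ blk p := blk_tail q1
        have q4 : q.length = d := Nat.succ_injective s2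
        refine ⟨q.map Prod.fst ++ q.map Prod.snd,
          blk_append (blk_map (fun _ _ => rfl) q2) (blk_map (fun _ _ => rfl) q2),
          by rw [List.length_append, List.length_map, List.length_map]; omega, q, rfl, i,
          Gd_rs (hg N) (C := n + W N * val N (x N) T) (fun e he => ?_) s5.1 s5.2, s4⟩
        have h3 := congrArg (fun a => W N * val N (x N) a) (t2 e (l1.subset he)).2
        simp only [hg N (T - e.1 + e.2) e.1, hg N T e.2] at h3
        omega)
  obtain ⟨p, rfl, i, c1, c2⟩ := y2 true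
  obtain ⟨i', c3, c4⟩ := y2 false
  have p1 : p.length = d := by
    rw [List.length_append, List.length_map, List.length_map] at y1
    omega
  obtain ⟨c5, c6⟩ := Gp_append c3
  rw [List.length_map, p1] at c6
  refine ⟨i, i', not_le.1 fun h => ?_, p1 ▸ three' c1 c5 (p1 ▸ c6)⟩
  have hm : StrictMono (Nat.nth Nat.Prime) := Nat.nth_strictMono Nat.infinite_setOfPred_prime
  have h3 := (hm.monotone h).trans (nth_add_le i e)
  have h4 := Nat.mul_le_mul_left (2 ^ e) c2
  have h5 := h1 N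
  omega

end Pool.Agent.FS.EveryD
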